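import Mathlib

set_option autoImplicit false

open Set Pointwise

namespace Pool.Agent.Results.MP_d97def_al.Density

/-- A finitely additive probability measure on all subsets of `G`. -/
def IsMeasure {G : Type} (m : Set G → ℝ) : Prop :=
  (∀ A, 0 ≤ m A ∧ m A ≤ 1) ∧ m univ = 1 ∧ ∀ A B, Disjoint A B → m (A ∪ B) = m A + m B

/-- `G` is amenable: it has a left-invariant finitely additive probability measure. -/
def Amenable (G : Type) [Group G] : Prop :=
  ∃ m : Set G → ℝ, IsMeasure m ∧ ∀ (g : G) (A : Set G), m ((fun a => g * a) '' A) = m A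

/-- Finitely supported probability measures on `G`. -/
def FinProb (G : Type) : Type := {μ : G →₀ ℝ // (∀ g, 0 ≤ μ g) ∧ μ.sum (fun _ r => r) = 1}

open Classical in
/-- The value `μ(A)` of a finitely supported measure. -/
noncomputable def FinProb.val' {G : Type} (μ : FinProb G) (A : Set G) : ℝ :=
  μ.1.sum (fun g r => if g ∈ A then r else 0)

/-- `is₁₂(A) = inf_μ sup_y μ(Ay)`. -/
noncomputable def is12 {G : Type} [Group G] (A : Set G) : ℝ :=
  ⨅ μ : FinProb G, ⨆ y : G, μ.val' ((fun a => a * y) '' A)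

/-- `A` is a partition of `G` into `n` pairwise disjoint cells. -/
def IsPartition {G : Type} {n : ℕ} (A : Fin n → Set G) : Prop :=
  (⋃ i, A i) = univ ∧ Pairwise (fun i j => Disjoint (A i) (A j))

/-- Property (a). -/
def PropA (G : Type) [Group G] : Prop :=
  ∀ n : ℕ, 1 ≤ n → ∀ A : Fin n → Set G, IsPartition A → ∃ i, 1 / (n : ℝ) ≤ is12 (A i)

/-- Property (d). -/
def PropD (G : Type) [Group G] : Prop :=
  ∀ n : ℕ, 1 ≤ n → ∀ A : Fin n → Set G, IsPartition A → ∃ i, 0 < is12 (A i)

section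
variable {G : Type} [Group G]

/-- translation action on set functions -/
def act (g : G) (m : Set G → ℝ) : Set G → ℝ := fun A => m ((fun a => g * a) ⁻¹' A)

theorem act_mul (g h : G) (m : Set G → ℝ) : act (g * h) m = act g (act h m) := by
  funext A
  simp only [act, preimage_preimage, mul_assoc]

theorem act_one (m : Set G → ℝ) : act (1 : G) m = m := by
  funext A
  simp [act]

theorem act_cont (g : G) : Continuous (act g : (Set G → ℝ) → Set G → ℝ) :=
  continuous_pi fun _ => continuous_apply _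

/-- nonempty closed convex invariant sets of measures -/
def Good (K : Set (Set G → ℝ)) : Prop :=
  K.Nonempty ∧ IsClosed K ∧ Convex ℝ K ∧ (∀ m ∈ K, IsMeasure m) ∧ ∀ g, ∀ m ∈ K, act g m ∈ K

omit [Group G] in
theorem compact_of (K : Set (Set G → ℝ)) (hc : IsClosed K) (hm : ∀ m ∈ K, IsMeasure m) :
    IsCompact K := by
  have : IsCompact (Set.pi univ (fun _ : Set G => Icc (0 : ℝ) 1)) :=
    isCompact_univ_pi fun _ => isCompact_Icc
  exact this.of_isClosed_subset hc fun m h A _ => (hm m h).1 A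

theorem good_all : Good {m : Set G → ℝ | IsMeasure m} := by
  classical
  refine ⟨⟨fun A => if (1 : G) ∈ A then 1 else 0, ?_, by simp, ?_⟩, ?_, ?_, fun _ h => h, ?_⟩
  · intro A; dsimp only; split_ifs <;> simp
  · intro A B hAB
    by_cases h1 : (1 : G) ∈ A <;> by_cases h2 : (1 : G) ∈ B <;> simp [h1, h2]
    exact Set.disjoint_left.1 hAB h1 h2
  · have e : {m : Set G → ℝ | IsMeasure m} = (⋂ A, {m | 0 ≤ m A} ∩ {m | m A ≤ 1}) ∩
        ({m | m univ = 1} ∩ ⋂ A, ⋂ B, ⋂ _ : Disjoint A B, {m | m (A ∪ B) = m A + m B}) := by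
      ext m; simp [IsMeasure]
    rw [e]
    refine (isClosed_iInter fun A => (isClosed_le continuous_const (continuous_apply A)).inter
      (isClosed_le (continuous_apply A) continuous_const)).inter
      ((isClosed_eq (continuous_apply _) continuous_const).inter
      (isClosed_iInter fun A => isClosed_iInter fun B => isClosed_iInter fun _ =>
        isClosed_eq (continuous_apply _) (by fun_prop)))
  · intro m hm m' hm' a b ha hb hab
    refine ⟨fun A => ⟨?_, ?_⟩, ?_, fun A B h => ?_⟩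
    · have := (hm.1 A).1; have := (hm'.1 A).1
      simp only [Pi.add_apply, Pi.smul_apply, smul_eq_mul]; positivity
    · have h1 := (hm.1 A).2; have h2 := (hm'.1 A).2
      simp only [Pi.add_apply, Pi.smul_apply, smul_eq_mul]
      nlinarith [mul_le_mul_of_nonneg_left h1 ha, mul_le_mul_of_nonneg_left h2 hb]
    · simp [hm.2.1, hm'.2.1, hab]
    · simp only [Pi.add_apply, Pi.smul_apply, smul_eq_mul, hm.2.2 A B h, hm'.2.2 A B h]; ring
  · intro g m hm
    refine ⟨fun A => hm.1 _, by simpa [act] using hm.2.1, fun A B h => ?_⟩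
    simp only [act, preimage_union]
    exact hm.2.2 _ _ (h.preimage _)

theorem exists_minimal : ∃ K : Set (Set G → ℝ), Good K ∧ ∀ K', Good K' → K' ⊆ K → K ⊆ K' := by
  obtain ⟨K, -, hK⟩ := zorn_superset_nonempty {K : Set (Set G → ℝ) | Good K} (by
    intro c hc hch hne
    refine ⟨⋂₀ c, ⟨?_, ?_, ?_, ?_, ?_⟩, fun s hs => sInter_subset_of_mem hs⟩
    · have : Nonempty c := hne.to_subtype
      rw [sInter_eq_iInter]
      refine IsCompact.nonempty_iInter_of_directed_nonempty_isCompact_isClosed _ ?_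
        (fun i => (hc i.2).1) (fun i => compact_of _ (hc i.2).2.1 (hc i.2).2.2.2.1)
        (fun i => (hc i.2).2.1)
      intro i j
      rcases hch.total i.2 j.2 with h | h
      · exact ⟨i, subset_rfl, h⟩
      · exact ⟨j, h, subset_rfl⟩
    · exact isClosed_sInter fun K h => (hc h).2.1
    · exact convex_sInter fun K h => (hc h).2.2.1
    · obtain ⟨K, hK⟩ := hne
      exact fun m hm => (hc hK).2.2.2.1 m (hm K hK)
    · exact fun g m hm K hK => (hc hK).2.2.2.2 g m (hm K hK)) _ good_all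
  exact ⟨K, hK.1, fun K' h1 h2 => hK.2 h1 h2⟩

/-- uniform pushing towards the maximum of a linear functional -/
theorem push (K : Set (Set G → ℝ)) (hK : Good K) (hmin : ∀ K', Good K' → K' ⊆ K → K ⊆ K')
    (φ : (Set G → ℝ) →ₗ[ℝ] ℝ) (hφ : Continuous φ) (x₁ : Set G → ℝ) (hx₁ : x₁ ∈ K) (t : ℝ)
    (ht : t < φ x₁) :
    ∃ (S : Finset G) (w : S → ℝ), w ∈ stdSimplex ℝ S ∧
      ∀ x ∈ K, t < ∑ s : S, w s * φ (act s.1 x) := by
  classical
  have hKc := compact_of K hK.2.1 hK.2.2.2.1
  have h1 : ∀ x ∈ K, ∃ g : G, t < φ (act g x) := by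
    intro x hx
    by_contra hcon
    push Not at hcon
    have hg : Good {y | y ∈ K ∧ ∀ g : G, φ (act g y) ≤ t} := by
      refine ⟨⟨x, hx, hcon⟩, ?_, ?_, fun m hm => hK.2.2.2.1 m hm.1, ?_⟩
      · have : {y | y ∈ K ∧ ∀ g : G, φ (act g y) ≤ t} = K ∩ ⋂ g : G, {y | φ (act g y) ≤ t} := by
          ext y; simp
        rw [this]
        exact hK.2.1.inter (isClosed_iInter fun g =>
          isClosed_le (hφ.comp (act_cont g)) continuous_const)
      · intro y hy z hz a b ha hb hab
        refine ⟨hK.2.2.1 hy.1 hz.1 ha hb hab, fun g => ?_⟩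
        have e : act g (a • y + b • z) = a • act g y + b • act g z := rfl
        rw [e, map_add, map_smul, map_smul, smul_eq_mul, smul_eq_mul]
        have h1 := mul_le_mul_of_nonneg_left (hy.2 g) ha
        have h2 := mul_le_mul_of_nonneg_left (hz.2 g) hb
        have : a * t + b * t = t := by rw [← add_mul, hab, one_mul]
        linarith
      · intro g m hm
        exact ⟨hK.2.2.2.2 g m hm.1, fun h => by rw [← act_mul]; exact hm.2 _⟩
    have := (hmin _ hg fun y hy => hy.1) hx₁
    have h2 := this.2 1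
    rw [act_one] at h2
    linarith
  obtain ⟨S, hS⟩ := hKc.elim_finite_subcover (fun g : G => {y | t < φ (act g y)})
    (fun g => isOpen_lt continuous_const (hφ.comp (act_cont g)))
    (fun x hx => mem_iUnion.2 (h1 x hx))
  have key := Sion.exists_lt_iInf_of_lt_iInf_of_finite (X := K) (Y := stdSimplex ℝ S)
    (f := fun x w => ∑ s : S, w s * φ (act s.1 x)) hK.1 hKc ?_ ?_ (convex_stdSimplex ℝ S) ?_ ?_
    hK.2.2.1 (s := range fun s : S => Pi.single s (1 : ℝ)) (finite_range _)
    (by rintro _ ⟨s, rfl⟩; exact single_mem_stdSimplex ℝ s) (t := t) ?_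
  · obtain ⟨w, hw, h⟩ := key
    exact ⟨S, w, hw, h⟩
  · intro w _
    exact (Continuous.lowerSemicontinuous (continuous_finsetSum _ fun s _ =>
      continuous_const.mul (hφ.comp (act_cont s.1)))).lowerSemicontinuousOn K
  · intro w _
    refine ConvexOn.quasiconvexOn ⟨hK.2.2.1, fun y _ z _ a b _ _ _ => le_of_eq ?_⟩
    simp only [smul_eq_mul, Finset.mul_sum, ← Finset.sum_add_distrib]
    refine Finset.sum_congr rfl fun s _ => ?_
    have e : act s.1 (a • y + b • z) = a • act s.1 y + b • act s.1 z := rfl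
    rw [e, map_add, map_smul, map_smul, smul_eq_mul, smul_eq_mul]; ring
  · intro x _
    exact (Continuous.upperSemicontinuous (continuous_finsetSum _ fun s _ =>
      (continuous_apply s).mul continuous_const)).upperSemicontinuousOn _
  · intro x _
    refine ConcaveOn.quasiconcaveOn ⟨convex_stdSimplex ℝ S, fun y _ z _ a b _ _ _ => le_of_eq ?_⟩
    simp only [smul_eq_mul, Finset.mul_sum, ← Finset.sum_add_distrib, Pi.add_apply,
      Pi.smul_apply]
    refine Finset.sum_congr rfl fun s _ => ?_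
    ring
  · intro x hx
    obtain ⟨g, hg, hx'⟩ := mem_iUnion₂.1 (hS hx)
    refine ⟨_, ⟨⟨g, hg⟩, rfl⟩, ?_⟩
    rw [Finset.sum_eq_single (⟨g, hg⟩ : S)]
    · simpa using hx'
    · intro s _ hs; simp [hs]
    · simp

theorem is12_zero (K : Set (Set G → ℝ)) (hK : Good K) (hmin : ∀ K', Good K' → K' ⊆ K → K ⊆ K')
    (φ : (Set G → ℝ) →ₗ[ℝ] ℝ) (hφ : Continuous φ) (x₀ x₁ : Set G → ℝ) (hx₀ : x₀ ∈ K)
    (hx₁ : x₁ ∈ K) (c : ℝ) (hc : c < φ x₁) (A : Set G) (hA : ∀ g ∈ A, φ (act g x₀) ≤ c) :
    is12 A ≤ 0 := by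
  classical
  have hKc := compact_of K hK.2.1 hK.2.2.2.1
  obtain ⟨x₂, hx₂, hmax⟩ := hKc.exists_isMaxOn hK.1 hφ.continuousOn
  have hb : c < φ x₂ := hc.trans_le (hmax hx₁)
  have hnn : ∀ μ : FinProb G, 0 ≤ ⨆ y : G, μ.val' ((fun a => a * y) '' A) := fun μ =>
    Real.iSup_nonneg fun y => Finset.sum_nonneg fun g _ => by
      dsimp only
      split_ifs
      · exact μ.2.1 g
      · exact le_rfl
  refine le_of_forall_pos_le_add fun ε hε => ?_
  rw [zero_add]
  obtain ⟨S, w, hw, h⟩ := push K hK hmin φ hφ x₂ hx₂ (φ x₂ - ε * (φ x₂ - c))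
    (by nlinarith)
  let μ0 : G →₀ ℝ := Finsupp.onFinset S (fun g => if hg : g ∈ S then w ⟨g, hg⟩ else 0)
    (fun g hg => by by_contra h'; simp [h'] at hg)
  have hsum : ∀ F : G → ℝ → ℝ, (∀ g, F g 0 = 0) → μ0.sum F = ∑ s : S, F s.1 (w s) := by
    intro F hF
    rw [Finsupp.onFinset_sum _ hF, ← Finset.sum_coe_sort]
    refine Finset.sum_congr rfl fun s _ => ?_
    simp
  let μ : FinProb G := ⟨μ0, fun g => by
    simp only [μ0, Finsupp.onFinset_apply]
    split_ifs
    · exact hw.1 _
    · exact le_rfl, by rw [hsum _ fun _ => rfl]; exact hw.2⟩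
  refine (ciInf_le ⟨0, by rintro _ ⟨ν, rfl⟩; exact hnn ν⟩ μ).trans (ciSup_le fun y => ?_)
  have e : μ.val' ((fun a => a * y) '' A) =
      ∑ s : S, if s.1 ∈ (fun a => a * y) '' A then w s else 0 := hsum _ fun _ => by simp
  rw [e]
  have h2 := h (act y⁻¹ x₀) (hK.2.2.2.2 _ _ hx₀)
  have h3 : ∑ s : S, w s * φ (act s.1 (act y⁻¹ x₀)) ≤
      ∑ s : S, (w s * φ x₂ - (if s.1 ∈ (fun a => a * y) '' A then w s else 0) * (φ x₂ - c)) := by
    refine Finset.sum_le_sum fun s _ => ?_
    split_ifs with hs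
    · obtain ⟨a, ha, has⟩ := hs
      have : φ (act s.1 (act y⁻¹ x₀)) ≤ c := by
        rw [← act_mul, ← has]; simpa using hA a ha
      nlinarith [hw.1 s]
    · have : φ (act s.1 (act y⁻¹ x₀)) ≤ φ x₂ := hmax (hK.2.2.2.2 _ _ (hK.2.2.2.2 _ _ hx₀))
      nlinarith [hw.1 s]
  rw [Finset.sum_sub_distrib, ← Finset.sum_mul, ← Finset.sum_mul, hw.2] at h3
  have h4 : (∑ s : S, if s.1 ∈ (fun a => a * y) '' A then w s else 0) * (φ x₂ - c) <
      ε * (φ x₂ - c) := by linarith
  exact (lt_of_mul_lt_mul_right h4 (by linarith)).le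

theorem split (h : ¬ Amenable G) : ∃ A : Set G, is12 A ≤ 0 ∧ is12 Aᶜ ≤ 0 := by
  obtain ⟨K, hK, hmin⟩ := exists_minimal (G := G)
  obtain ⟨m, hm⟩ := hK.1
  have : ∃ B, ∃ x ∈ K, ∃ x' ∈ K, x B < x' B := by
    by_contra hcon
    push Not at hcon
    refine h ⟨m, hK.2.2.2.1 m hm, fun g A => ?_⟩
    have h1 := hcon ((fun a => g * a) '' A) m hm (act g m) (hK.2.2.2.2 g m hm)
    have h2 := hcon ((fun a => g * a) '' A) (act g m) (hK.2.2.2.2 g m hm) m hm
    have e : act g m ((fun a => g * a) '' A) = m A := by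
      simp only [act]
      rw [preimage_image_eq _ (mul_right_injective g)]
    linarith
  obtain ⟨B, x, hx, x', hx', hlt⟩ := this
  refine ⟨{g | act g m B ≤ (x B + x' B) / 2}, ?_, ?_⟩
  · exact is12_zero K hK hmin (LinearMap.proj B) (continuous_apply B) m x' hm hx'
      ((x B + x' B) / 2) (by simp only [LinearMap.proj_apply]; linarith) _ fun g hg => hg
  · refine is12_zero K hK hmin (-LinearMap.proj B) (continuous_apply B).neg m x hm hx
      (-((x B + x' B) / 2)) (by simp only [LinearMap.neg_apply, LinearMap.proj_apply]; linarith)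
      _ fun g hg => ?_
    have : ¬ act g m B ≤ (x B + x' B) / 2 := hg
    simp only [LinearMap.neg_apply, LinearMap.proj_apply]
    linarith

end

/-- Every non-amenable group is the union of two disjoint sets of `is₁₂`-density zero; hence each
of the properties (a) and (d) implies amenability. -/
theorem result (G : Type) [Group G] :
    (¬ Amenable G → ∃ A : Set G, is12 A = 0 ∧ is12 Aᶜ = 0) ∧
      (PropA G → Amenable G) ∧ (PropD G → Amenable G) := by
  classical
  have hnn : ∀ A : Set G, 0 ≤ is12 A := fun A =>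
    Real.iInf_nonneg fun μ => Real.iSup_nonneg fun y => Finset.sum_nonneg fun g _ => by
      dsimp only
      split_ifs
      · exact μ.2.1 g
      · exact le_rfl
  have hd : PropD G → Amenable G := by
    intro hD
    by_contra h
    obtain ⟨A, h1, h2⟩ := split h
    obtain ⟨i, hi⟩ := hD 2 (by norm_num) ![A, Aᶜ] ⟨by
      apply eq_univ_of_forall
      intro g
      by_cases hg : g ∈ A
      · exact mem_iUnion.2 ⟨0, hg⟩
      · exact mem_iUnion.2 ⟨1, hg⟩, by
      intro i j hij
      fin_cases i <;> fin_cases j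
      · exact absurd rfl hij
      · exact disjoint_compl_right
      · exact disjoint_compl_left
      · exact absurd rfl hij⟩
    fin_cases i
    · exact absurd hi (not_lt.2 h1)
    · exact absurd hi (not_lt.2 h2)
  refine ⟨fun h => ?_, fun hA => hd fun n hn A hP => ?_, hd⟩
  · obtain ⟨A, h1, h2⟩ := split h
    exact ⟨A, le_antisymm h1 (hnn _), le_antisymm h2 (hnn _)⟩
  · obtain ⟨i, hi⟩ := hA n hn A hP
    have : (0 : ℝ) < n := by exact_mod_cast hn
    exact ⟨i, lt_of_lt_of_le (by positivity) hi⟩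

end Pool.Agent.Results.MP_d97def_al.Density
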